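import Pool.Agent.K4H50.MB.M12

/-!
# Prime tuples for almost all slopes, uniformly in short shifts

Fix exponents `c 1, ..., c k > 0`.  For almost every `(α 1, ..., α k)` with positive entries the uniform asymptotic
formula for prime tuples holds for the integers `n`, `⌊α i * n ^ (c i)⌋ + d i`, uniformly in all shifts
`0 ≤ d i ≤ (log N) ^ A`, for every `A`.  The case `c i = 1` concerns the tuples `n, ⌊α 1 n⌋ + d 1, ..., ⌊α k n⌋ + d k`;
with all slopes equal to `1` it would be the statement of the problem.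
-/

set_option autoImplicit false

namespace Pool.Agent.Results.MP_485179_nt.AlmostAllSlopes

open MeasureTheory

/-- Let `c i > 0`.  For almost every `α` in `(0, ∞) ^ k`, for all `A`:

* the number of the `n ≤ N` for which `n` and all `⌊α i * n ^ (c i)⌋ + d i` are prime is asymptotic to
  `N / (log N * ∏ (c i * log N))` as `N → ∞`, uniformly in `0 ≤ d i ≤ (log N) ^ A`;
* the sum over `n ≤ N` of `Λ n * ∏ Λ (⌊α i * n ^ (c i)⌋ + d i)` differs from `N` by at most `N / (log N) ^ K`, for every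
  `K` and all large `N`, uniformly in `0 ≤ d i ≤ (log N) ^ A`. -/
theorem result (k : ℕ) (c : Fin k → ℝ) (hc : ∀ i, 0 < c i) :
    ∀ᵐ α ∂((volume : Measure (Fin k → ℝ)).restrict {α | ∀ i, 0 < α i}),
      (∀ A : ℕ, ∀ ε : ℝ, 0 < ε → ∃ N₀ : ℕ, ∀ N : ℕ, N₀ ≤ N → ∀ d : Fin k → ℕ,
        (∀ i, (d i : ℝ) ≤ (Real.log N) ^ A) →
          |(((Finset.Icc 1 N).filter fun n : ℕ => n.Prime ∧
              ∀ i, (⌊α i * (n : ℝ) ^ (c i)⌋₊ + d i).Prime).card : ℝ) *
            (Real.log N * ∏ i, (c i * Real.log N)) / N - 1| ≤ ε) ∧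
      (∀ A K : ℕ, ∃ N₀ : ℕ, ∀ N : ℕ, N₀ ≤ N → ∀ d : Fin k → ℕ, (∀ i, (d i : ℝ) ≤ (Real.log N) ^ A) →
        |∑ n ∈ Finset.Icc 1 N, ArithmeticFunction.vonMangoldt n *
            ∏ i, ArithmeticFunction.vonMangoldt (⌊α i * (n : ℝ) ^ (c i)⌋₊ + d i) - N| ≤
          N / (Real.log N) ^ K) := by
  filter_upwards [Pool.Agent.K4H50.MB.lsum_all c hc, Pool.Agent.K4H50.MB.count_lam_ae k c hc] with α h1 h2
  have h3 : ∀ A K : ℕ, ∃ N₀ : ℕ, ∀ N : ℕ, N₀ ≤ N → ∀ d : Fin k → ℕ, (∀ i, (d i : ℝ) ≤ (Real.log N) ^ A) →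
      |∑ n ∈ Finset.Icc 1 N, ArithmeticFunction.vonMangoldt n *
          ∏ i, ArithmeticFunction.vonMangoldt (⌊α i * (n : ℝ) ^ (c i)⌋₊ + d i) - N| ≤
        N / (Real.log N) ^ K := fun A K => Filter.eventually_atTop.1 (h1 A K)
  refine ⟨h2 fun A ε hε => ?_, h3⟩
  obtain ⟨N₀, hN₀⟩ := h3 A 1
  have hlogt : Filter.Tendsto (fun N : ℕ => Real.log (N : ℝ)) Filter.atTop Filter.atTop :=
    Real.tendsto_log_atTop.comp tendsto_natCast_atTop_atTop
  obtain ⟨N₁, hN₁⟩ := Filter.eventually_atTop.1 (hlogt.eventually_ge_atTop (1 / ε))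
  refine ⟨max N₀ N₁, fun N hN d hd => ?_⟩
  refine (hN₀ N (le_trans (le_max_left _ _) hN) d hd).trans ?_
  have h4 := hN₁ N (le_trans (le_max_right _ _) hN)
  have h5 : 0 < Real.log N := lt_of_lt_of_le (by positivity) h4
  rw [pow_one, div_le_iff₀ h5]
  have h6 : 1 ≤ ε * Real.log N := by
    rw [div_le_iff₀ hε] at h4
    linarith
  have h7 : (0 : ℝ) ≤ N := Nat.cast_nonneg N
  nlinarith

end Pool.Agent.Results.MP_485179_nt.AlmostAllSlopes
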