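import Mathlib
import Pool.Agent.K4H50.SG.C4

/-!
# Prime tuples whose shifts solve `a_1 + … + a_r = b_1 + … + b_r` in an arbitrary set

`A` is an ARBITRARY set of shifts up to a power of `L = log x`, `J` the number of the solutions of
`a_1 + … + a_r = b_1 + … + b_r` in `A`.  If `J` exceeds the trivial quantities `|A| ^ (2 r - 2) L` and
`|A| ^ r L ^ r` by a factor `L ^ δ`, then the number of prime `2 r`-tuples `m + a_1, …, m + b_r`,
`m ≤ x`, is on average over the solutions with distinct entries at least `1 - ε` times the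
Hardy-Littlewood prediction, a positive proportion of the solutions reach the prediction up to the
factor `1 - ε`, and the average of the singular series over the solutions is at least `1 - ε`.  For
`r = 2` these are the additive quadruples in `A`, and the hypothesis is that the additive energy of `A`
is at least `|A| ^ 2 L ^ (2 + δ)`.
-/

set_option autoImplicit false

namespace Pool.Agent.Results.MP_485179_nt.EqualSumsOfShifts

open Finset Filter Topology

/-- the number of residue classes modulo `p` met by `D` -/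
def nu (D : Finset ℕ) (p : ℕ) : ℕ := (D.image (· % p)).card

/-- the singular series of `D` -/
noncomputable def 𝔖 (D : Finset ℕ) : ℝ :=
  ∏' p : Nat.Primes, (1 - (nu D p : ℝ) / ((p : ℕ) : ℝ)) / (1 - 1 / ((p : ℕ) : ℝ)) ^ D.card

/-- the number of integers `1 ≤ m ≤ x` such that all `m + t`, `t ∈ D`, are prime -/
noncomputable def count (x : ℝ) (D : Finset ℕ) : ℕ :=
  ((Icc 1 ⌊x⌋₊).filter (fun m => ∀ t ∈ D, (m + t).Prime)).card

/-- the pairs `(a, b)` of `r`-tuples of elements of `A` with `∑ a i = ∑ b i` -/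
def solutions (r : ℕ) (A : Finset ℕ) : Finset ((Fin r → ℕ) × (Fin r → ℕ)) :=
  ((Fintype.piFinset fun _ : Fin r => A) ×ˢ (Fintype.piFinset fun _ : Fin r => A)).filter
    (fun p => ∑ i, p.1 i = ∑ i, p.2 i)

/-- the set of the entries `a_1, …, a_r, b_1, …, b_r` -/
def entries {r : ℕ} (p : (Fin r → ℕ) × (Fin r → ℕ)) : Finset ℕ :=
  univ.image p.1 ∪ univ.image p.2

/-- the solutions with `2 r` distinct entries -/
def distinctSolutions (r : ℕ) (A : Finset ℕ) : Finset ((Fin r → ℕ) × (Fin r → ℕ)) :=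
  (solutions r A).filter (fun p => (entries p).card = 2 * r)

open Pool.Agent.H387R2.Uni Pool.Agent.K4H50.SG

theorem DA_eq {r : ℕ} (p : (Fin r → ℕ) × (Fin r → ℕ)) : Abs.DA (Eqs.pt r) p = entries p := by
  unfold Abs.DA entries Eqs.pt
  ext t
  rw [mem_image, mem_union, mem_image, mem_image]
  constructor
  · rintro ⟨i | i, -, h⟩
    · exact Or.inl ⟨i, mem_univ _, h⟩
    · exact Or.inr ⟨i, mem_univ _, h⟩
  · rintro (⟨i, -, h⟩ | ⟨i, -, h⟩)
    · exact ⟨Sum.inl i, mem_univ _, h⟩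
    · exact ⟨Sum.inr i, mem_univ _, h⟩

open Classical in
/-- For every finite set `D` the product `𝔖 D` converges.  Let `r ≥ 2` and `0 < ε < 1`.  There is
`κ > 0` such that for all `δ, C > 0` there is `x₀` such that for all `x ≥ x₀` and every set `A` of
non-negative integers `≤ (log x) ^ C` for which the number `J` of the solutions of
`a_1 + … + a_r = b_1 + … + b_r` in `A` is at least `(log x) ^ (1 + δ) |A| ^ (2 r - 2)` and at least
`(log x) ^ (r + δ) |A| ^ r`:
* the sum of `𝔖 (entries p)` over the solutions `p` with distinct entries is at least `(1 - ε) J`;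
* the sum of `count x (entries p)` over these `p` is at least `(1 - ε) x / (log x) ^ (2 r)` times the
  sum of `𝔖 (entries p)`;
* the `p` with `count x (entries p) ≥ (1 - ε) 𝔖 (entries p) x / (log x) ^ (2 r)` carry at least the
  proportion `κ` of the sum of `𝔖 (entries p)`. -/
theorem result :
    (∀ D : Finset ℕ, HasProd (fun p : Nat.Primes =>
      (1 - (nu D p : ℝ) / ((p : ℕ) : ℝ)) / (1 - 1 / ((p : ℕ) : ℝ)) ^ D.card) (𝔖 D)) ∧
    ∀ r : ℕ, 2 ≤ r → ∀ ε : ℝ, 0 < ε → ε < 1 →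
      ∃ κ : ℝ, 0 < κ ∧ ∀ δ C : ℝ, 0 < δ → 0 < C → ∃ x₀ : ℝ, ∀ x : ℝ, x₀ ≤ x →
        ∀ A : Finset ℕ, (∀ a ∈ A, (a : ℝ) ≤ Real.log x ^ C) →
        Real.log x ^ (1 + δ) * (A.card : ℝ) ^ (2 * r - 2) ≤ (solutions r A).card →
        Real.log x ^ ((r : ℝ) + δ) * (A.card : ℝ) ^ r ≤ (solutions r A).card →
        (1 - ε) * ((solutions r A).card : ℝ) ≤ ∑ p ∈ distinctSolutions r A, 𝔖 (entries p) ∧
        (1 - ε) * (x / Real.log x ^ (2 * r) * ∑ p ∈ distinctSolutions r A, 𝔖 (entries p)) ≤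
          ∑ p ∈ distinctSolutions r A, (count x (entries p) : ℝ) ∧
        κ * ∑ p ∈ distinctSolutions r A, 𝔖 (entries p) ≤
          ∑ p ∈ (distinctSolutions r A).filter (fun p =>
            (1 - ε) * (x / Real.log x ^ (2 * r) * 𝔖 (entries p)) ≤ (count x (entries p) : ℝ)),
              𝔖 (entries p) := by
  refine ⟨fun T => CT_hasProd T, fun r hr ε hε hε1 => ?_⟩
  obtain ⟨r', rfl⟩ : ∃ r', r = r' + 1 := ⟨r - 1, by omega⟩
  obtain ⟨k, hk⟩ : ∃ k, k + 1 = 2 * (r' + 1) := ⟨2 * (r' + 1) - 1, by omega⟩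
  have hκc : Fintype.card (Fin (r' + 1) ⊕ Fin (r' + 1)) = k + 1 := by
    rw [Fintype.card_sum, Fintype.card_fin]
    omega
  obtain ⟨κ, hκ, h⟩ := Abs.natural (α := (Fin (r' + 1) → ℕ) × (Fin (r' + 1) → ℕ)) hκc
    (ε := ε / 2) (by positivity) (by linarith)
  refine ⟨κ, hκ, fun δ C hδ hC => ?_⟩
  have tN : Tendsto (fun N : ℕ => (N : ℝ)) atTop atTop := tendsto_natCast_atTop_atTop
  have tL : Tendsto (fun N : ℕ => Real.log (N : ℝ)) atTop atTop := Real.tendsto_log_atTop.comp tN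
  obtain ⟨N₀, hN₀⟩ := eventually_atTop.1 ((h δ (C + 1)
    (2 * (2 * ((r' + 1 : ℕ) : ℝ)) ^ (2 * (r' + 1) + 1)) hδ (by positivity)).and
    ((tL.eventually_ge_atTop (max 1 (2 ^ C))).and ((eventually_ge_atTop 2).and
      (tN.eventually_ge_atTop (2 / ε)))))
  refine ⟨N₀ + 1, fun x hx A hA hJ1 hJ2 => ?_⟩
  have hx0 : 0 ≤ x := le_trans (by positivity) hx
  set N := ⌊x⌋₊ with hN
  have hNx : (N:ℝ) ≤ x := Nat.floor_le hx0
  have hxN : x < N + 1 := Nat.lt_floor_add_one x
  have hNN : N₀ ≤ N := by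
    have : (N₀:ℝ) < N + 1 := by linarith
    have h2 : N₀ < N + 1 := by exact_mod_cast this
    omega
  obtain ⟨h1, hL1, hN2, hNε⟩ := hN₀ N hNN
  set L := Real.log (N:ℝ) with hL
  have hL1' : 1 ≤ L := (le_max_left _ _).trans hL1
  have hLd : 2 ^ C ≤ L := (le_max_right _ _).trans hL1
  have hL0 : 0 < L := by linarith
  have hN2r : (2:ℝ) ≤ N := by exact_mod_cast hN2
  have hN0 : (0:ℝ) < N := by linarith
  have hLx : L ≤ Real.log x := Real.log_le_log hN0 hNx
  have hLx2 : Real.log x ≤ 2 * L := by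
    calc Real.log x ≤ Real.log ((N:ℝ) ^ 2) := Real.log_le_log (by linarith) (by nlinarith)
      _ = 2 * L := by rw [Real.log_pow, hL]; norm_num
  have hX0 : 0 < Real.log x := by linarith
  have eS : Eqs.Sol (r' + 1) A = solutions (r' + 1) A := rfl
  -- the hypotheses
  have hA1 : ∀ X ∈ Eqs.Sol (r' + 1) A, ∀ t ∈ Abs.DA (Eqs.pt (r' + 1)) X, (t : ℝ) ≤ L ^ (C + 1) := by
    intro X hX t ht
    have ht' : t ∈ A := by
      unfold Eqs.Sol at hX
      rw [mem_filter, mem_product, Fintype.mem_piFinset, Fintype.mem_piFinset] at hX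
      obtain ⟨i | i, -, rfl⟩ := mem_image.1 ht
      · exact hX.1.1 i
      · exact hX.1.2 i
    calc (t : ℝ) ≤ Real.log x ^ C := hA t ht'
      _ ≤ (2 * L) ^ C := by gcongr
      _ = 2 ^ C * L ^ C := by rw [Real.mul_rpow (by norm_num) hL0.le]
      _ ≤ L * L ^ C := mul_le_mul_of_nonneg_right hLd (by positivity)
      _ = L ^ (C + 1) := by rw [Real.rpow_add hL0, Real.rpow_one, mul_comm]
  have hJ1' : L ^ (1 + δ) * (A.card : ℝ) ^ (2 * (r' + 1) - 2) ≤ (Eqs.Sol (r' + 1) A).card := by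
    refine le_trans ?_ hJ1
    apply mul_le_mul_of_nonneg_right _ (by positivity)
    exact Real.rpow_le_rpow hL0.le hLx (by linarith)
  have hJ2' : L ^ (((r' + 1 : ℕ) : ℝ) + δ) * (A.card : ℝ) ^ (r' + 1) ≤ (Eqs.Sol (r' + 1) A).card := by
    refine le_trans ?_ hJ2
    apply mul_le_mul_of_nonneg_right _ (by positivity)
    exact Real.rpow_le_rpow hL0.le hLx (by positivity)
  have hdeg := Eqs.deg_sol (R := r' + 1) (by omega) hk hL1' hδ A hJ1' hJ2'
  obtain ⟨c1, c2, c3⟩ := h1 (Eqs.Sol (r' + 1) A) (Eqs.pt (r' + 1)) (Eqs.avg_sol r' A) hA1 hdeg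
  have eG : Abs.Good (Eqs.Sol (r' + 1) A) (Eqs.pt (r' + 1)) k = distinctSolutions (r' + 1) A := by
    unfold Abs.Good distinctSolutions
    simp only [DA_eq, hk]
    rfl
  have eC : ∀ D : Finset ℕ, CT D = 𝔖 D := fun D => rfl
  have h𝔖 : ∀ D : Finset ℕ, 0 ≤ 𝔖 D := fun D => CT_nonneg D
  simp only [eG, DA_eq, eC] at c1 c2 c3
  rw [← hk]
  have hcnt : ∀ D : Finset ℕ, (cnt k (N - ⌊L ^ (C + 1)⌋₊) D : ℝ) ≤ (count x D : ℝ) := by
    intro D
    have : cnt k (N - ⌊L ^ (C + 1)⌋₊) D ≤ count x D := by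
      unfold cnt count
      apply card_le_card
      intro n hn
      rw [mem_filter, mem_Ioc] at hn
      rw [mem_filter, mem_Icc]
      exact ⟨⟨by omega, by omega⟩, hn.2⟩
    exact_mod_cast this
  have hP : (1 - ε) * (x / Real.log x ^ (k + 1)) ≤ (1 - ε / 2) * (N / L ^ (k + 1)) := by
    have i1 : x / Real.log x ^ (k + 1) ≤ (N + 1) / L ^ (k + 1) := by
      apply div_le_div₀ (by positivity) hxN.le (by positivity)
      exact pow_le_pow_left₀ hL0.le hLx _
    have i2 : (1 - ε) * (N + 1 : ℝ) ≤ (1 - ε / 2) * N := by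
      rw [div_le_iff₀ hε] at hNε
      nlinarith
    calc (1 - ε) * (x / Real.log x ^ (k + 1)) ≤ (1 - ε) * ((N + 1) / L ^ (k + 1)) :=
          mul_le_mul_of_nonneg_left i1 (by linarith)
      _ = ((1 - ε) * (N + 1 : ℝ)) / L ^ (k + 1) := by ring
      _ ≤ ((1 - ε / 2) * N) / L ^ (k + 1) := div_le_div_of_nonneg_right i2 (by positivity)
      _ = _ := by ring
  have hPS : ∀ v : ℝ, 0 ≤ v → (1 - ε) * (x / Real.log x ^ (k + 1) * v) ≤
      (1 - ε / 2) * (N / L ^ (k + 1) * v) := by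
    intro v hv
    have := mul_le_mul_of_nonneg_right hP hv
    linarith
  refine ⟨?_, ?_, ?_⟩
  · refine le_trans ?_ c1
    apply mul_le_mul_of_nonneg_right (by linarith) (Nat.cast_nonneg _)
  · refine (hPS _ (Finset.sum_nonneg fun X _ => h𝔖 _)).trans (c2.trans ?_)
    exact Finset.sum_le_sum fun X _ => hcnt _
  · refine c3.trans ?_
    apply Finset.sum_le_sum_of_subset_of_nonneg
    · intro X hX
      rw [mem_filter] at hX ⊢
      exact ⟨hX.1, (hPS _ (h𝔖 _)).trans (hX.2.trans (hcnt _))⟩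
    · intro X _ _
      exact h𝔖 _

end Pool.Agent.Results.MP_485179_nt.EqualSumsOfShifts
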