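import Pool.Agent.K4H14.MT.Tuple

/-!
# Prime tuples with short shifts, in short intervals and in progressions with small smooth moduli
-/

set_option autoImplicit false

namespace Pool.Agent.Results.MP_485179_nt.ShortIntervalsOrSmoothModuli

open Finset Filter
open Pool.Agent.K4H14.MT

/-- the number of `n` with `X < n ≤ Y`, `n ≡ a (mod q)` such that all `n + h`, `h ∈ H`, are primes -/
def tupleCount (H : Finset ℕ) (X Y q a : ℕ) : ℕ :=
  ((Ioc X Y).filter (fun n : ℕ => n ≡ a [MOD q] ∧ ∀ h ∈ H, (n + h).Prime)).card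

/-- the number of classes `b` modulo `q` such that all `b + h`, `h ∈ H`, are prime to `q` -/
def classes (H : Finset ℕ) (q : ℕ) : ℕ :=
  ((range q).filter (fun b : ℕ => ∀ h ∈ H, Nat.Coprime (b + h) q)).card

/-- `N = ⌈3 K max(A, B) / ε⌉` -/
noncomputable def windows (K A B : ℕ) (ε : ℝ) : ℕ := ⌈3 * (K * max A B : ℕ) / ε⌉₊

/-- the constant of the theorem: `1 / (4 (8 N) ^ N)` -/
noncomputable def delta (K A B : ℕ) (ε : ℝ) : ℝ :=
  1 / (4 * (8 * (windows K A B ε : ℕ)) ^ windows K A B ε)

/-- `q` is squarefree, all its prime factors are between `(log X) ^ (3 ε / 8)` and `(log X) ^ ε`, and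
`q ≤ exp ((log X) ^ ε)` -/
def SmallModulus (ε : ℝ) (X q : ℕ) : Prop :=
  Squarefree q ∧ (∀ p : ℕ, p.Prime → p ∣ q → Real.log X ^ (3 / 8 * ε) ≤ p ∧ (p : ℝ) < Real.log X ^ ε) ∧
    (q : ℝ) ≤ Real.exp (Real.log X ^ ε)

/-- all `a + h`, `h ∈ H`, are prime to `q`, and the number of `n` with `X < n ≤ 2 X`, `n ≡ a (mod q)`, for
which all `n + h` are primes differs from the share `G / classes H q` by at least `δ` times that share -/
def ClassDeviates (H : Finset ℕ) (δ G : ℝ) (X q a : ℕ) : Prop :=
  (∀ h ∈ H, Nat.Coprime (a + h) q) ∧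
    δ * (G / classes H q) ≤ |(tupleCount H X (2 * X) q a : ℝ) - G / classes H q|

/-- the number of `n` with `y < n ≤ y + S` for which all `n + h` are primes differs from the share
`S G / X` by at least `δ` times that share -/
def IntervalDeviates (H : Finset ℕ) (δ G : ℝ) (X S y : ℕ) : Prop :=
  δ * (S * (G / X)) ≤ |(tupleCount H y (y + S) 1 0 : ℝ) - S * (G / X)|

theorem cnt_eq (H : Finset ℕ) (X Y q a : ℕ) : cnt (Pt H) X Y q a = tupleCount H X Y q a := by
  unfold cnt tupleCount Pt
  congr!

theorem cop_eq (H : Finset ℕ) (b q : ℕ) : Nat.Coprime (Ft H b) q ↔ ∀ h ∈ H, Nat.Coprime (b + h) q := by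
  unfold Ft
  exact Nat.coprime_prod_left_iff

theorem cls_eq (H : Finset ℕ) (q : ℕ) : cls (Ft H) q = classes H q := by
  unfold cls classes
  simp only [cop_eq]

open Classical in
/-- **Prime tuples with short shifts are irregular in short intervals or in progressions with tiny
smooth moduli.**  Let `K ≥ 1`, `A`, `B ≥ 1` be integers, `0 < ε ≤ 1`, `N = ⌈3 K max(A, B) / ε⌉` and
`δ = 1 / (4 (8 N) ^ N)`. There is `X₀` such that for all `X ≥ X₀`, all sets `H` of `K` integers with
`0 ≤ h ≤ (log X) ^ A` and all real numbers `G` (the main term for the number of `n` in `(X, 2 X]` such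
that all `n + h` are primes) at least one of the following holds.

(i) There is a squarefree `q ≤ exp ((log X) ^ ε)`, all of whose prime factors are between
`(log X) ^ (3 ε / 8)` and `(log X) ^ ε`, and an integer `0 ≤ a ≤ (log X) ^ B` with all `a + h` prime to
`q`, such that the number of the `n ≡ a (mod q)` among them differs from its share `G / r(q)` by at least
`δ G / r(q)`, where `r(q)` is the number of the classes `b` modulo `q` with all `b + h` prime to `q`.

(ii) For every length `S` with `1 ≤ S ≤ (log X) ^ B` there are at least `X exp (-(log X) ^ ε)` integers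
`y` in `(X, 2 X]` such that the number of the `n` in `(y, y + S]` for which all `n + h` are primes differs
from its share `S G / X` by at least `δ S G / X`.

In the question `K = A = k + 1` and `H` is `D_k` together with `0`. -/
theorem result (K A B : ℕ) (hK : 1 ≤ K) (hB : 1 ≤ B) (ε : ℝ) (hε : 0 < ε) (hε1 : ε ≤ 1) :
    ∃ X₀ : ℕ, ∀ X : ℕ, X₀ ≤ X →
      ∀ H : Finset ℕ, H.card = K → (∀ h ∈ H, (h : ℝ) ≤ Real.log X ^ A) → ∀ G : ℝ,
      (∃ q a : ℕ, SmallModulus ε X q ∧ (a : ℝ) ≤ Real.log X ^ B ∧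
        ClassDeviates H (delta K A B ε) G X q a) ∨
      ∀ S : ℕ, 1 ≤ S → (S : ℝ) ≤ Real.log X ^ B →
        X * Real.exp (-(Real.log X ^ ε)) ≤
          (((Ioc X (2 * X)).filter
            (fun y : ℕ => IntervalDeviates H (delta K A B ε) G X S y)).card : ℝ) := by
  obtain ⟨X₀, h⟩ := eventually_atTop.1 (tuple K A B hK hB ε hε hε1)
  refine ⟨X₀, fun X hX H hH hA G => ?_⟩
  have h1 := h X hX H hH hA G
  simp only [cnt_eq, cls_eq, cop_eq] at h1
  rcases h1 with ⟨q, h2, h3, h4, a, h7, h5, h6⟩ | h2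
  · left
    exact ⟨q, a, ⟨h2, h3, h4⟩, h7, h5, h6⟩
  · right
    intro S hS1 hSB
    exact h2 S hS1 hSB

end Pool.Agent.Results.MP_485179_nt.ShortIntervalsOrSmoothModuli
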