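import Mathlib
import Pool.Agent.K4H50.SG.B7

/-!
# Sum patterns in arbitrary sets of short shifts

`d` sets `A c` of short shifts are given and from each of them `s c` elements `X c 0, X c 1, ...` are
chosen; the sums with one chosen element from each set form a pattern of `S = ∏ s c` shifts (for
`d = 2`, `s = (2, 2)`: the rectangle `a + b, a + b', a' + b, a' + b'`).  For ARBITRARY sets `A c` with
at least `(log x) ^ (S / s c + δ)` elements the number of prime patterns is on average over all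
configurations at least `1 - ε` times the Hardy-Littlewood prediction, a positive proportion of the
configurations reach the prediction up to the factor `1 - ε`, and the average of the singular series
over the configurations is at least `1 - ε`.
-/

set_option autoImplicit false

namespace Pool.Agent.Results.MP_485179_nt.SumsetPatterns

open Finset Filter Topology

/-- the number of residue classes modulo `p` met by `D` -/
def nu (D : Finset ℕ) (p : ℕ) : ℕ := (D.image (· % p)).card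

/-- the singular series of `D` -/
noncomputable def 𝔖 (D : Finset ℕ) : ℝ :=
  ∏' p : Nat.Primes, (1 - (nu D p : ℝ) / ((p : ℕ) : ℝ)) / (1 - 1 / ((p : ℕ) : ℝ)) ^ D.card

/-- the number of integers `1 ≤ m ≤ x` such that all `m + t`, `t ∈ D`, are prime -/
noncomputable def count (x : ℝ) (D : Finset ℕ) : ℕ :=
  ((Icc 1 ⌊x⌋₊).filter (fun m => ∀ t ∈ D, (m + t).Prime)).card

/-- the set of the sums `∑ c, X c (e c)` over all choices `e` -/
def sums {d : ℕ} {s : Fin d → ℕ} (X : ∀ c : Fin d, Fin (s c) → ℕ) : Finset ℕ :=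
  univ.image (fun e : (∀ c : Fin d, Fin (s c)) => ∑ c, X c (e c))

/-- the choices of `s c` elements (in order) of `A c` for every `c` for which the `∏ s c` sums are
distinct -/
def configs {d : ℕ} (s : Fin d → ℕ) (A : Fin d → Finset ℕ) :
    Finset (∀ c : Fin d, Fin (s c) → ℕ) :=
  (Fintype.piFinset fun c => Fintype.piFinset fun _ : Fin (s c) => A c).filter
    (fun X => (sums X).card = ∏ c, s c)

open Pool.Agent.H387R2.Uni Pool.Agent.K4H50.SG

open Classical in
/-- For every finite set `D` the product `𝔖 D` converges.  Let `d` and `s c ≥ 1` (`c < d`) be given,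
`S = ∏ s c`, and let `0 < ε < 1`.  There is `κ > 0` such that for all `δ, C > 0` there is `x₀` such
that for all `x ≥ x₀` and all sets `A c` of non-negative integers `≤ (log x) ^ C` with at least
`(log x) ^ (∏_{c' ≠ c} s c' + δ)` elements:
* the sum of `𝔖 (sums X)` over `X ∈ configs s A` is at least `(1 - ε) ∏ |A c| ^ s c`;
* the sum of `count x (sums X)` is at least `(1 - ε) x / (log x) ^ S` times the sum of `𝔖 (sums X)`;
* the `X` with `count x (sums X) ≥ (1 - ε) 𝔖 (sums X) x / (log x) ^ S` carry at least the proportion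
  `κ` of the sum of `𝔖 (sums X)`. -/
theorem result :
    (∀ D : Finset ℕ, HasProd (fun p : Nat.Primes =>
      (1 - (nu D p : ℝ) / ((p : ℕ) : ℝ)) / (1 - 1 / ((p : ℕ) : ℝ)) ^ D.card) (𝔖 D)) ∧
    ∀ (d : ℕ) (s : Fin d → ℕ), (∀ c, 1 ≤ s c) → ∀ ε : ℝ, 0 < ε → ε < 1 →
      ∃ κ : ℝ, 0 < κ ∧ ∀ δ C : ℝ, 0 < δ → 0 < C → ∃ x₀ : ℝ, ∀ x : ℝ, x₀ ≤ x →
        ∀ A : Fin d → Finset ℕ, (∀ c, ∀ a ∈ A c, (a : ℝ) ≤ Real.log x ^ C) →
        (∀ c, Real.log x ^ ((∏ c' ∈ univ.erase c, (s c' : ℝ)) + δ) ≤ ((A c).card : ℝ)) →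
        (1 - ε) * ∏ c, ((A c).card : ℝ) ^ s c ≤ ∑ X ∈ configs s A, 𝔖 (sums X) ∧
        (1 - ε) * (x / Real.log x ^ (∏ c, s c) * ∑ X ∈ configs s A, 𝔖 (sums X)) ≤
          ∑ X ∈ configs s A, (count x (sums X) : ℝ) ∧
        κ * ∑ X ∈ configs s A, 𝔖 (sums X) ≤
          ∑ X ∈ (configs s A).filter (fun X =>
            (1 - ε) * (x / Real.log x ^ (∏ c, s c) * 𝔖 (sums X)) ≤ (count x (sums X) : ℝ)),
              𝔖 (sums X) := by
  refine ⟨fun T => CT_hasProd T, fun d s hs ε hε hε1 => ?_⟩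
  have hS1 : 1 ≤ ∏ c, s c := Finset.one_le_prod' fun c _ => hs c
  obtain ⟨k, hk⟩ : ∃ k, ∏ c, s c = k + 1 := ⟨∏ c, s c - 1, by omega⟩
  obtain ⟨κ, hκ, h⟩ := natural hs hk (ε := ε / 2) (by positivity) (by linarith)
  refine ⟨κ, hκ, fun δ C hδ hC => ?_⟩
  have tN : Tendsto (fun N : ℕ => (N : ℝ)) atTop atTop := tendsto_natCast_atTop_atTop
  have tL : Tendsto (fun N : ℕ => Real.log (N : ℝ)) atTop atTop := Real.tendsto_log_atTop.comp tN
  obtain ⟨N₀, hN₀⟩ := eventually_atTop.1 ((h δ (C + 1) hδ).and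
    ((tL.eventually_ge_atTop (max 1 (d * 2 ^ C))).and ((eventually_ge_atTop 2).and
      (tN.eventually_ge_atTop (2 / ε)))))
  refine ⟨N₀ + 1, fun x hx A hA hAc => ?_⟩
  have hx0 : 0 ≤ x := le_trans (by positivity) hx
  set N := ⌊x⌋₊ with hN
  have hNx : (N:ℝ) ≤ x := Nat.floor_le hx0
  have hxN : x < N + 1 := Nat.lt_floor_add_one x
  have hNN : N₀ ≤ N := by
    have : (N₀:ℝ) < N + 1 := by linarith
    have h2 : N₀ < N + 1 := by exact_mod_cast this
    omega
  obtain ⟨h1, hL1, hN2, hNε⟩ := hN₀ N hNN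
  set L := Real.log (N:ℝ) with hL
  have hL1' : 1 ≤ L := (le_max_left _ _).trans hL1
  have hLd : d * 2 ^ C ≤ L := (le_max_right _ _).trans hL1
  have hL0 : 0 < L := by linarith
  have hN2r : (2:ℝ) ≤ N := by exact_mod_cast hN2
  have hN0 : (0:ℝ) < N := by linarith
  have hLx : L ≤ Real.log x := Real.log_le_log hN0 hNx
  have hLx2 : Real.log x ≤ 2 * L := by
    calc Real.log x ≤ Real.log ((N:ℝ) ^ 2) := Real.log_le_log (by linarith) (by nlinarith)
      _ = 2 * L := by rw [Real.log_pow, hL]; norm_num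
  have hX0 : 0 < Real.log x := by linarith
  -- the hypotheses
  have hA1 : ∀ X ∈ Conf s A, ∀ t ∈ DD X, (t : ℝ) ≤ L ^ (C + 1) := by
    intro X hX t ht
    obtain ⟨e, -, rfl⟩ := mem_image.1 ht
    unfold Conf at hX
    rw [Fintype.mem_piFinset] at hX
    unfold sg
    push_cast
    calc ∑ c, (X c (e c) : ℝ) ≤ ∑ _c : Fin d, Real.log x ^ C := by
          apply Finset.sum_le_sum
          intro c _
          exact hA c _ (Fintype.mem_piFinset.1 (hX c) (e c))
      _ = d * Real.log x ^ C := by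
          rw [Finset.sum_const, card_univ, Fintype.card_fin, nsmul_eq_mul]
      _ ≤ d * (2 * L) ^ C := by gcongr
      _ = (d * 2 ^ C) * L ^ C := by rw [Real.mul_rpow (by norm_num) hL0.le]; ring
      _ ≤ L * L ^ C := mul_le_mul_of_nonneg_right hLd (by positivity)
      _ = L ^ (C + 1) := by rw [Real.rpow_add hL0, Real.rpow_one, mul_comm]
  have hA2 : ∀ c, L ^ (((∏ c' ∈ univ.erase c, s c' : ℕ) : ℝ) + δ) ≤ (A c).card := by
    intro c
    refine le_trans ?_ (hAc c)
    push_cast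
    apply Real.rpow_le_rpow hL0.le hLx
    have : (0:ℝ) ≤ ∏ c' ∈ univ.erase c, (s c' : ℝ) := Finset.prod_nonneg fun _ _ => Nat.cast_nonneg _
    linarith
  obtain ⟨c1, c2, c3⟩ := h1 A hA1 hA2
  have eG : Good s A = configs s A := rfl
  have eD : ∀ X : (∀ c : Fin d, Fin (s c) → ℕ), DD X = sums X := fun X => rfl
  have eC : ∀ D : Finset ℕ, CT D = 𝔖 D := fun D => rfl
  have h𝔖 : ∀ D : Finset ℕ, 0 ≤ 𝔖 D := fun D => CT_nonneg D
  simp only [eG, eD, eC] at c1 c2 c3
  rw [hk]
  have hcnt : ∀ D : Finset ℕ, (cnt k (N - ⌊L ^ (C + 1)⌋₊) D : ℝ) ≤ (count x D : ℝ) := by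
    intro D
    have : cnt k (N - ⌊L ^ (C + 1)⌋₊) D ≤ count x D := by
      unfold cnt count
      apply card_le_card
      intro n hn
      rw [mem_filter, mem_Ioc] at hn
      rw [mem_filter, mem_Icc]
      exact ⟨⟨by omega, by omega⟩, hn.2⟩
    exact_mod_cast this
  have hP : (1 - ε) * (x / Real.log x ^ (k + 1)) ≤ (1 - ε / 2) * (N / L ^ (k + 1)) := by
    have i1 : x / Real.log x ^ (k + 1) ≤ (N + 1) / L ^ (k + 1) := by
      apply div_le_div₀ (by positivity) hxN.le (by positivity)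
      exact pow_le_pow_left₀ hL0.le hLx _
    have i2 : (1 - ε) * (N + 1 : ℝ) ≤ (1 - ε / 2) * N := by
      rw [div_le_iff₀ hε] at hNε
      nlinarith
    calc (1 - ε) * (x / Real.log x ^ (k + 1)) ≤ (1 - ε) * ((N + 1) / L ^ (k + 1)) :=
          mul_le_mul_of_nonneg_left i1 (by linarith)
      _ = ((1 - ε) * (N + 1 : ℝ)) / L ^ (k + 1) := by ring
      _ ≤ ((1 - ε / 2) * N) / L ^ (k + 1) := div_le_div_of_nonneg_right i2 (by positivity)
      _ = _ := by ring
  have hPS : ∀ v : ℝ, 0 ≤ v → (1 - ε) * (x / Real.log x ^ (k + 1) * v) ≤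
      (1 - ε / 2) * (N / L ^ (k + 1) * v) := by
    intro v hv
    have := mul_le_mul_of_nonneg_right hP hv
    linarith
  refine ⟨?_, ?_, ?_⟩
  · refine le_trans ?_ c1
    rw [card_Conf]
    push_cast
    apply mul_le_mul_of_nonneg_right (by linarith)
    exact Finset.prod_nonneg fun _ _ => by positivity
  · refine (hPS _ (Finset.sum_nonneg fun X _ => h𝔖 _)).trans (c2.trans ?_)
    exact Finset.sum_le_sum fun X _ => hcnt _
  · refine c3.trans ?_
    apply Finset.sum_le_sum_of_subset_of_nonneg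
    · intro X hX
      rw [mem_filter] at hX ⊢
      exact ⟨hX.1, (hPS _ (h𝔖 _)).trans (hX.2.trans (hcnt _))⟩
    · intro X _ _
      exact h𝔖 _

end Pool.Agent.Results.MP_485179_nt.SumsetPatterns
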